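import Pool.Agent.Helper29.AR.Props
import Pool.Agent.Helper10.RC.Homs

/-! Packet AR-SmallE: invariant full elements of small rank. -/

open scoped ENNReal NNReal InnerProductSpace ComplexOrder
open Filter Topology

attribute [-instance] CStarMatrix.instAlgebra CStarMatrix.instModule CStarMatrix.instSMul
  CStarMatrix.instMulAction CStarMatrix.instDistribMulAction

noncomputable section
namespace RC
universe u

namespace SE56

section
variable {A : Type u} [CStarAlgebra A] [PartialOrder A] [StarOrderedRing A]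

omit [PartialOrder A] [StarOrderedRing A] in
theorem one1_one : one1 (1 : A) = (1 : CStarMatrix Unit Unit A) := by
  ext i j
  rw [CStarMatrix.one_apply, if_pos (Subsingleton.elim i j)]
  rfl

/-- `T ≥ 1` has a self-adjoint `S` with `S T S = 1`. -/
theorem exists_inv_sqrt (T : A) (h : 1 ≤ T) : ∃ S : A, star S = S ∧ S * T * S = 1 := by
  have h0 : 0 ≤ T := le_trans zero_le_one h
  have hs : IsSelfAdjoint T := IsSelfAdjoint.of_nonneg h0
  have hsp : ∀ t ∈ spectrum ℝ T, (1 : ℝ) ≤ t := by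
    have := (algebraMap_le_iff_le_spectrum (R := ℝ) (r := 1) (a := T) hs).mp (by simpa using h)
    exact this
  have hc : ContinuousOn (fun t : ℝ => (√t)⁻¹) (spectrum ℝ T) := by
    refine ContinuousOn.inv₀ Real.continuous_sqrt.continuousOn ?_
    intro t ht
    exact (Real.sqrt_pos.mpr (lt_of_lt_of_le one_pos (hsp t ht))).ne'
  refine ⟨cfc (fun t : ℝ => (√t)⁻¹) T, (cfc_predicate _ T : IsSelfAdjoint _).star_eq, ?_⟩
  have e1 : cfc (fun t : ℝ => (√t)⁻¹) T * T * cfc (fun t : ℝ => (√t)⁻¹) T =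
      cfc (fun t : ℝ => (√t)⁻¹) T * cfc (fun t : ℝ => t) T * cfc (fun t : ℝ => (√t)⁻¹) T := by
    rw [cfc_id' ℝ T hs]
  rw [e1, ← cfc_mul (fun t : ℝ => (√t)⁻¹) (fun t : ℝ => t) T hc (by fun_prop),
    ← cfc_mul (fun t : ℝ => (√t)⁻¹ * t) (fun t : ℝ => (√t)⁻¹) T (hc.mul (by fun_prop)) hc]
  rw [← cfc_const_one ℝ T hs]
  refine cfc_congr ?_
  intro t ht
  have ht1 := hsp t ht
  have hpos : 0 < √t := Real.sqrt_pos.mpr (lt_of_lt_of_le one_pos ht1)
  have hsq : √t * √t = t := Real.mul_self_sqrt (by linarith)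
  show (√t)⁻¹ * t * (√t)⁻¹ = 1
  have e2 : (√t)⁻¹ * t * (√t)⁻¹ = t * (√t * √t)⁻¹ := by rw [mul_inv]; ring
  rw [e2, hsq]
  exact mul_inv_cancel₀ (by linarith)

/-- A full positive element gives the unit as a sum of conjugates. -/
theorem full (hS : Simp A) (E : A) (hE : 0 ≤ E) (hne : E ≠ 0) :
    ∃ (J : ℕ) (r : Fin J → A), ∑ i, r i * E * star (r i) = 1 := by
  obtain ⟨n, p, q, hpq⟩ := hS.2 E hne
  have hEs : star E = E := (IsSelfAdjoint.of_nonneg hE).star_eq
  have hpq' : ∑ i, star (q i) * E * star (p i) = 1 := by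
    have := congrArg star hpq
    rw [star_sum, star_one] at this
    rw [← this]
    refine Finset.sum_congr rfl fun i _ => ?_
    rw [star_mul, star_mul, hEs, mul_assoc]
  have hle : (1 : A) + 1 ≤ ∑ i, (p i * E * star (p i) + star (q i) * E * q i) := by
    have h1 : (1 : A) + 1 = ∑ i, (p i * E * q i + star (q i) * E * star (p i)) := by
      rw [Finset.sum_add_distrib, hpq, hpq']
    rw [h1]
    refine Finset.sum_le_sum fun i _ => ?_
    have h2 := star_right_conjugate_nonneg hE (p i - star (q i))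
    rw [star_sub, star_star] at h2
    have h3 : (p i - star (q i)) * E * (star (p i) - q i) =
        (p i * E * star (p i) + star (q i) * E * q i) -
          (p i * E * q i + star (q i) * E * star (p i)) := by
      noncomm_ring
    rw [h3] at h2
    exact sub_nonneg.mp h2
  have hle1 : (1 : A) ≤ ∑ i, (p i * E * star (p i) + star (q i) * E * q i) := by
    refine le_trans ?_ hle
    exact le_add_of_nonneg_left zero_le_one
  obtain ⟨S, hS1, hS2⟩ := exists_inv_sqrt _ hle1
  refine ⟨n + n, Fin.addCases (fun i => S * p i) (fun i => S * star (q i)), ?_⟩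
  rw [Fin.sum_univ_add]
  simp only [Fin.addCases_left, Fin.addCases_right]
  rw [← hS2, Finset.sum_add_distrib, mul_add, add_mul]
  congr 1
  · rw [Finset.mul_sum, Finset.sum_mul]
    refine Finset.sum_congr rfl fun i _ => ?_
    rw [star_mul, hS1]
    noncomm_ring
  · rw [Finset.mul_sum, Finset.sum_mul]
    refine Finset.sum_congr rfl fun i _ => ?_
    rw [star_mul, star_star, hS1]
    noncomm_ring

theorem halves (hH : HalfP.{u}) (hB : QBasicP.{u}) (hN : NoFin A) (φ : TState A) :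
    ∀ k : ℕ, ∃ d : A, 0 ≤ d ∧ 0 < (φ.φ d).re ∧ ∀ σ : QTrace A, 2 ^ k * σ.dim (one1 d) ≤ 1 := by
  intro k
  induction k with
  | zero =>
    refine ⟨1, zero_le_one, by rw [φ.one]; norm_num, fun σ => ?_⟩
    have h := (hB A σ Unit (one1 (1 : A)) (by rw [one1_one]; exact zero_le_one)).2.2.1
    simpa using h
  | succ k ih =>
    obtain ⟨d, hd, hφ, hσ⟩ := ih
    obtain ⟨d', hd', hφ', hσ'⟩ := hH A hN φ d hd hφ
    refine ⟨d', hd', hφ', fun σ => ?_⟩
    have h1 := hσ σ
    have h2 := hσ' σ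
    have h3 : (0 : ℝ) < 2 ^ k := by positivity
    calc 2 ^ (k + 1) * σ.dim (one1 d') = 2 ^ k * (2 * σ.dim (one1 d')) := by ring
      _ ≤ 2 ^ k * σ.dim (one1 d) := mul_le_mul_of_nonneg_left h2 h3.le
      _ ≤ 1 := h1

end

end SE56

theorem smallE (hH : HalfP.{u}) (hB : QBasicP.{u}) (hP : QPullP.{u}) (hD : DimP.{u}) :
    SmallEP.{u} := by
  intro A _ _ _ G _ _ α hα hS hN hφ θ hθ
  obtain ⟨φ⟩ := hφ
  obtain ⟨k, hk⟩ : ∃ k : ℕ, (Fintype.card G : ℝ) / θ ≤ 2 ^ k := by
    obtain ⟨k, hk⟩ := pow_unbounded_of_one_lt ((Fintype.card G : ℝ) / θ) (one_lt_two (α := ℝ))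
    exact ⟨k, hk.le⟩
  obtain ⟨d, hd, hφd, hσd⟩ := SE56.halves hH hB hN φ k
  have hd0 : d ≠ 0 := by
    rintro rfl
    simp at hφd
  have hαd : ∀ g, 0 ≤ α g d := fun g => map_nonneg (α g) hd
  set e : A := ∑ g, α g d with he
  have he0 : 0 ≤ e := Finset.sum_nonneg fun g _ => hαd g
  have hene : e ≠ 0 := by
    intro h
    have h1 := (Finset.sum_eq_zero_iff_of_nonneg fun g _ => hαd g).mp h 1 (Finset.mem_univ _)
    exact hd0 ((map_eq_zero_iff (α 1) (α 1).injective).mp h1)
  have hinv : ∀ g, α g e = e := by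
    intro g
    rw [he, map_sum]
    refine Fintype.sum_equiv (Equiv.mulLeft g) _ _ fun h => ?_
    exact (hα g h d).symm
  have hes : star e = e := (IsSelfAdjoint.of_nonneg he0).star_eq
  have hee : e * e ≠ 0 := by
    intro h
    apply hene
    rw [← CStarRing.star_mul_self_eq_zero_iff, hes]
    exact h
  have hee0 : 0 ≤ e * e := by
    have := star_mul_self_nonneg e
    rwa [hes] at this
  obtain ⟨J, r, hr⟩ := SE56.full hS (e * e) hee0 hee
  refine ⟨e, J, r, he0, hinv, hr, fun σ => ?_⟩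
  have h2k : (0 : ℝ) < 2 ^ k := by positivity
  have hg : ∀ g, σ.dim (one1 (α g d)) ≤ 1 / 2 ^ k := by
    intro g
    obtain ⟨ω, hω⟩ := hP A A ((α g : A →⋆ₐ[ℂ] A)) (α g).injective σ
    have h1 := hω Unit (one1 d) (one1_nonneg hd)
    have h2 : mp ((α g : A →⋆ₐ[ℂ] A)) (one1 d) = one1 (α g d) := rfl
    rw [h2] at h1
    rw [← h1, le_div_iff₀ h2k, mul_comm]
    exact hσd ω
  have hsum : e = ∑ i : Fin (Fintype.card G), α ((Fintype.equivFin G).symm i) d := by
    rw [he]
    exact Fintype.sum_equiv (Fintype.equivFin G) _ _ fun g => by simp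
  have h3 := (hD A σ).2.1 (Fintype.card G) (fun i => α ((Fintype.equivFin G).symm i) d)
    (fun i => hαd _)
  rw [← hsum] at h3
  calc σ.dim (one1 e) ≤ ∑ i : Fin (Fintype.card G), σ.dim (one1 (α ((Fintype.equivFin G).symm i) d)) := h3
    _ ≤ ∑ _i : Fin (Fintype.card G), 1 / 2 ^ k := Finset.sum_le_sum fun i _ => hg _
    _ = Fintype.card G / 2 ^ k := by simp [div_eq_mul_inv]
    _ ≤ θ := by
        rw [div_le_iff₀ h2k]
        rw [div_le_iff₀ hθ] at hk
        linarith

end RC
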